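import Pool.Agent.Lib.MP_b5021c_nt.UF.H02.Cres
import Pool.Agent.Lib.MP_b5021c_nt.UF.H74.Ccn

/-!
# Board b5, rows UF_C1 and UF_C2 together: `CcnS` without `CresS`
-/

namespace Pool.Agent.B5.H02

open scoped LaurentPolynomial
open Polynomial

theorem cresq (h2 : MultiS) (h3 : StSpecS) (h6 : G0S) (h7 : EvRS) (hE2 : E2S) :
    UF.H74.CresqS := by
  intro P L _ _ _ _ _ phi E S i0 h eta q G z0 hCC hcl hq hq' hG
  exact crss h2 h3 h6 h7 hE2 P L phi E S i0 h eta (toLaurent q) G z0 q 0 hCC hcl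
    (by rw [LaurentPolynomial.T_zero, one_mul]) hq hq' hG

theorem ccn2 (h2 : MultiS) (h3 : StSpecS) (h6 : G0S) (h7 : EvRS) (hE2 : E2S) (hPr : PrimS)
    (hA5 : A5S) (hA7 : A7S) : CcnS :=
  UF.H74.ccnq (cresq h2 h3 h6 h7 hE2) hE2 h6 hPr hA5 hA7

end Pool.Agent.B5.H02
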