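import Pool.Agent.Lib.MP_b5021c_nt.B.H83.I1A
import Pool.Agent.Lib.MP_b5021c_nt.B.H59.Cst
import Pool.Agent.Lib.MP_b5021c_nt.B.H78.Den
import Pool.Agent.Lib.MP_b5021c_nt.B.H79.C0D

/-!
# Board b5, row UF_C1 (corrected)

`CresS` of IfaceUF.lean is false at a double zero of the content; `CrssS` is the statement at a
simple zero, `SzcS` says that the zeros of `p0 - p1` on the circle are simple.
-/

set_option linter.unusedSectionVars false

namespace Pool.Agent.B5

open scoped LaurentPolynomial
open Polynomial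

/-- (UF_C1) at a SIMPLE zero `z0` of the content the part of `E` without the port `i0` is a
constant multiple of `G`. -/
def CrssS : Prop := ∀ (P L : Type) [Fintype P] [DecidableEq P] [AddCommGroup L]
  [Module.Free ℤ L] [Module.Finite ℤ L] (phi : L →+ (P → ℤ)) (E : AO ℤ L) (S : L) (i0 : P)
  (h : co phi i0 S = 1) (eta : (RO ℤ)ˣ) (c : RO ℤ) (G : AO ℤ (Ker (co phi i0))) (z0 : Circle)
  (q : ℤ[X]) (n : ℤ),
    CC phi E S i0 eta → cl (co phi i0) S h eta E = cst c * G →
    c = LaurentPolynomial.T n * toLaurent q → aeval (z0 : ℂ) q = 0 →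
    aeval (z0 : ℂ) (derivative q) ≠ 0 → evR z0 (G.coeff 0) ≠ 0 →
      ∃ ka : ℂ, ∀ a : Ker (co phi i0),
        evR z0 (E.coeff (a : L)) = ka * evR z0 (G.coeff a)

/-- The zeros of `p0 - p1` on the circle are simple (`|p1| ≤ |p0|`, `p0` zero-free). -/
def SzcS : Prop := ∀ (p0 p1 : ℤ[X]) (z0 : ℂ), p0 ≠ p1 → (∀ z : ℂ, ‖z‖ < 1 → aeval z p0 ≠ 0) →
  (∀ z : Circle, ‖aeval (z : ℂ) p1‖ ≤ ‖aeval (z : ℂ) p0‖) → ‖z0‖ = 1 → aeval z0 p0 ≠ 0 →
    aeval z0 (p0 - p1) = 0 → aeval z0 (derivative (p0 - p1)) ≠ 0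

namespace H02

section

variable {O : Type} [CommRing O] [IsDomain O] [IsPrincipalIdealRing O] [Coef O]
  {P L : Type} [Fintype P] [DecidableEq P] [AddCommGroup L] [Module.Free ℤ L] [Module.Finite ℤ L]

/-- `Re (X conj V) ≥ 0` on every slice. -/
theorem re_nn' (h2 : MultiS) (h3 : StSpecS) (h7 : EvRS)
    (D : AO O L) (S : L) (k : L →+ ℤ) (eta : (RO O)ˣ) (h : k S = 1) (hst0 : Stable D)
    (hbin : ∀ a ∈ supp D, k a = 0 ∨ k a = 1) (lam : L →+ ℤ) (hS : lam S = 0)
    (hlam : ∀ a ∈ supp D, a ≠ 0 → a ≠ S → 0 < lam a) (z : Circle) (hD0 : evR z (D.coeff 0) ≠ 0)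
    (u : AddChar (Ker k) Circle) (s : ℂ) (hs : ‖s‖ < 1) :
    0 ≤ ((sl u (lam.comp (incl (Ker k))) (spec z (res (Ker k) D))).eval s *
      (starRingEnd ℂ) ((sl u (lam.comp (incl (Ker k)))
        (spec z (cl k S h eta D))).eval s)).re := by
  have hst : StableC (spec z D) := (h3 O L D).1 hst0 z hD0
  set lam' := lam.comp (incl (Ker k)) with hlam'
  have hsup : ∀ a ∈ (spec z D).coeff.support, a ∈ supp D := by
    intro a ha h0
    rw [Finsupp.mem_support_iff, spec_coeff, h0, map_zero] at ha
    exact ha rfl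
  have hn : ‖evR z (eta : RO O)‖ = 1 := (h7 O).2.1 z _ eta.isUnit
  set X := (sl u lam' (spec z (res (Ker k) D))).eval s with hX
  set V := (sl u lam' (spec z (cl k S h eta D))).eval s with hV
  set e := evR z (eta : RO O) with he
  have he0 : e ≠ 0 := by
    intro h0
    rw [h0, norm_zero] at hn
    exact zero_ne_one hn
  have hne : ∀ y : ℂ, ‖y‖ < 1 → X + y * (e⁻¹ * (V - X)) ≠ 0 := by
    intro y hy
    have := h2 L (spec z D) hst (Fin 2) ![lam, k] (by
        intro i a ha
        have ha' := hsup a ha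
        fin_cases i
        · rcases eq_or_ne a 0 with rfl | h0
          · simp
          · rcases eq_or_ne a S with rfl | h1
            · simpa using hS.ge
            · simpa using (hlam a ha' h0 h1).le
        · rcases hbin a ha' with h | h <;> simp [h])
      (by
        intro a ha h0
        have ha' := hsup a ha
        rw [Fin.sum_univ_two]
        have hk0 : 0 ≤ k a := by rcases hbin a ha' with h | h <;> simp [h]
        rcases eq_or_ne a S with rfl | h1
        · simp [hS, h]
        · have := hlam a ha' h0 h1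
          simp only [Matrix.cons_val_zero, Matrix.cons_val_one]
          omega)
      (u.compAddMonoidHom (prj k S h)) ![s, y] (by
        intro i
        fin_cases i
        · simpa using hs
        · simpa using hy)
    rw [H83.two_slice k S h eta lam hS z u D hbin s y] at this
    exact this
  have hle : ‖V - X‖ ≤ ‖X‖ := by
    by_contra hcon
    push Not at hcon
    have hY0 : e⁻¹ * (V - X) ≠ 0 := by
      intro h0
      rcases mul_eq_zero.mp h0 with h1 | h1
      · exact he0 (inv_eq_zero.mp h1)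
      · rw [h1, norm_zero] at hcon
        exact absurd hcon (not_lt.mpr (norm_nonneg _))
    apply hne (-X / (e⁻¹ * (V - X)))
    · rw [norm_div, norm_neg, div_lt_one (norm_pos_iff.mpr hY0), norm_mul, norm_inv, hn, inv_one,
        one_mul]
      exact hcon
    · rw [div_mul_cancel₀ _ hY0, add_neg_cancel]
  have h9 : Complex.normSq (V - X) ≤ Complex.normSq X := by
    rw [Complex.normSq_eq_norm_sq, Complex.normSq_eq_norm_sq]
    exact pow_le_pow_left₀ (norm_nonneg _) hle 2
  have h10 := Complex.normSq_nonneg V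
  rw [Complex.normSq_apply] at h9 h10
  rw [Complex.normSq_apply] at h9
  rw [Complex.mul_re, Complex.conj_re, Complex.conj_im]
  simp only [Complex.sub_re, Complex.sub_im] at h9
  nlinarith

/-- `Re (X conj V) ≥ 0` on every slice. -/
theorem re_nn (h2 : MultiS) (h3 : StSpecS) (h7 : EvRS) (h8 : E2S) (phi : L →+ (P → ℤ))
    (D : AO O L) (S : L) (i0 : P) (eta : (RO O)ˣ) (h : co phi i0 S = 1)
    (hcc : CC phi D S i0 eta) (lam : L →+ ℤ) (hS : lam S = 0)
    (hlam : ∀ a ∈ supp D, a ≠ 0 → a ≠ S → 0 < lam a) (z : Circle)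
    (u : AddChar (Ker (co phi i0)) Circle) (s : ℂ) (hs : ‖s‖ < 1) :
    0 ≤ ((sl u (lam.comp (incl (Ker (co phi i0)))) (spec z (res (Ker (co phi i0)) D))).eval s *
      (starRingEnd ℂ) ((sl u (lam.comp (incl (Ker (co phi i0))))
        (spec z (cl (co phi i0) S h eta D))).eval s)).re :=
  re_nn' h2 h3 h7 D S (co phi i0) eta h hcc.dd.st (fun a ha => hcc.dd.bin a ha i0) lam hS hlam z
    ((h8 O P L phi D hcc.dd hcc.two).1 z) u s hs

end

/-- A polynomial quotient with real part zero near `0` is constant. -/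
theorem prop_of_re (x g : ℂ[X]) (ga : ℂ) (hga : ga ≠ 0) (hg : g.eval 0 ≠ 0)
    (hre : ∀ s : ℂ, ‖s‖ < 1 → (x.eval s * (starRingEnd ℂ) (ga * g.eval s)).re = 0) :
    C (g.eval 0) * x = C (x.eval 0) * g := by
  have hc : Continuous fun s : ℂ => g.eval s := g.continuous
  have hop : IsOpen {s : ℂ | g.eval s ≠ 0} := isOpen_ne_fun hc continuous_const
  obtain ⟨r, hr, hrs⟩ := Metric.isOpen_iff.mp hop 0 hg
  set r' := min r 1 with hr'
  have hr0 : 0 < r' := lt_min hr one_pos
  set U := Metric.ball (0 : ℂ) r' with hU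
  have hUg : ∀ s ∈ U, g.eval s ≠ 0 := fun s hs =>
    hrs (Metric.ball_subset_ball (min_le_left _ _) hs)
  have hU1 : ∀ s ∈ U, ‖s‖ < 1 := fun s hs => by
    rw [hU, mem_ball_zero_iff] at hs
    exact hs.trans_le (min_le_right _ _)
  set f : ℂ → ℂ := fun s => x.eval s / (ga * g.eval s) with hf
  have hd : DifferentiableOn ℂ f U := by
    apply DifferentiableOn.div
    · exact x.differentiable.differentiableOn
    · exact (g.differentiable.const_mul ga).differentiableOn
    · intro s hs
      exact mul_ne_zero hga (hUg s hs)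
  have han : AnalyticOnNhd ℂ f U := hd.analyticOnNhd Metric.isOpen_ball
  have hfre : ∀ s ∈ U, (f s).re = 0 := by
    intro s hs
    have hne : ga * g.eval s ≠ 0 := mul_ne_zero hga (hUg s hs)
    have h1 : f s = (x.eval s * (starRingEnd ℂ) (ga * g.eval s)) *
        ((Complex.normSq (ga * g.eval s) : ℝ) : ℂ)⁻¹ := by
      rw [hf]
      change x.eval s / (ga * g.eval s) = _
      rw [div_eq_mul_inv, Complex.inv_def, mul_assoc, Complex.ofReal_inv]
    rw [h1, ← Complex.ofReal_inv, Complex.re_mul_ofReal, hre s (hU1 s hs), zero_mul]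
  have h0U : (0 : ℂ) ∈ U := Metric.mem_ball_self hr0
  rcases han.is_constant_or_isOpen (convex_ball (0 : ℂ) r').isPreconnected with ⟨w, hw⟩ | ho
  · have hw0 := hw 0 h0U
    have heq : ∀ s ∈ U, (C (g.eval 0) * x).eval s = (C (x.eval 0) * g).eval s := by
      intro s hs
      have h1 := hw s hs
      rw [← hw0] at h1
      change x.eval s / (ga * g.eval s) = x.eval 0 / (ga * g.eval 0) at h1
      rw [div_eq_div_iff (mul_ne_zero hga (hUg s hs)) (mul_ne_zero hga hg)] at h1
      rw [eval_mul, eval_mul, eval_C, eval_C]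
      have h2 : ga * (g.eval 0 * x.eval s - x.eval 0 * g.eval s) = 0 := by linear_combination h1
      exact sub_eq_zero.mp ((mul_eq_zero.mp h2).resolve_left hga)
    apply Polynomial.eq_of_infinite_eval_eq
    apply Set.Infinite.mono (s := U)
    · intro s hs
      exact heq s hs
    · exact infinite_of_mem_nhds (0 : ℂ) (Metric.ball_mem_nhds _ hr0)
  · exfalso
    have h1 := ho U subset_rfl Metric.isOpen_ball
    obtain ⟨d, hd0, hds⟩ := Metric.isOpen_iff.mp h1 (f 0) ⟨0, h0U, rfl⟩
    have h2 : f 0 + ((d / 2 : ℝ) : ℂ) ∈ Metric.ball (f 0) d := by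
      rw [Metric.mem_ball, dist_eq_norm, add_sub_cancel_left, Complex.norm_real,
        Real.norm_of_nonneg (by linarith)]
      linarith
    obtain ⟨s, hs, hs2⟩ := hds h2
    have h3 := hfre s hs
    rw [hs2, Complex.add_re, hfre 0 h0U, Complex.ofReal_re] at h3
    linarith

/-! ## The curve `z0 e^(i th)` -/

theorem evR_Tq (z : Circle) (n : ℤ) (q : ℤ[X]) :
    evR z (LaurentPolynomial.T n * toLaurent q : RO ℤ) = (z : ℂ) ^ n * aeval (z : ℂ) q := by
  rw [map_mul]
  congr 1
  · unfold evR
    rw [LaurentPolynomial.eval₂_T, Units.val_zpow_eq_zpow_val]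
    rfl
  · unfold evR
    rw [LaurentPolynomial.eval₂_toLaurent, Polynomial.aeval_def]
    congr 1

theorem curve_deriv (z0 : Circle) (q : ℤ[X]) (n : ℤ) (h0 : aeval (z0 : ℂ) q = 0) :
    HasDerivAt (fun th : ℝ => evR (z0 * Circle.exp th) (LaurentPolynomial.T n * toLaurent q : RO ℤ))
      ((z0 : ℂ) ^ n * (aeval (z0 : ℂ) (derivative q) * ((z0 : ℂ) * Complex.I))) 0 := by
  have h1 : HasDerivAt (fun th : ℝ => (z0 : ℂ) * Complex.exp ((th : ℂ) * Complex.I))
      ((z0 : ℂ) * Complex.I) 0 := by
    have h2 : HasDerivAt (fun th : ℂ => (z0 : ℂ) * Complex.exp (th * Complex.I))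
        ((z0 : ℂ) * (Complex.exp (((0 : ℝ) : ℂ) * Complex.I) * (1 * Complex.I))) ((0 : ℝ) : ℂ) :=
      (((hasDerivAt_id _).mul_const Complex.I).cexp).const_mul _
    have h3 := h2.comp_ofReal
    simpa using h3
  have h4 : ∀ th : ℝ, evR (z0 * Circle.exp th) (LaurentPolynomial.T n * toLaurent q : RO ℤ) =
      ((z0 : ℂ) * Complex.exp ((th : ℂ) * Complex.I)) ^ n *
        aeval ((z0 : ℂ) * Complex.exp ((th : ℂ) * Complex.I)) q := by
    intro th
    rw [evR_Tq, Circle.coe_mul, Circle.coe_exp]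
  have h5 : HasDerivAt (fun z : ℂ => z ^ n * aeval z q)
      ((n * (z0 : ℂ) ^ (n - 1)) * aeval (z0 : ℂ) q + (z0 : ℂ) ^ n * aeval (z0 : ℂ) (derivative q))
      (z0 : ℂ) := by
    apply HasDerivAt.mul
    · exact hasDerivAt_zpow n _ (Or.inl (Circle.coe_ne_zero z0))
    · have := q.hasDerivAt_aeval (z0 : ℂ)
      exact this
  have h6 : HasDerivAt (fun z : ℂ => z ^ n * aeval z q)
      ((z0 : ℂ) ^ n * aeval (z0 : ℂ) (derivative q))
      ((fun th : ℝ => (z0 : ℂ) * Complex.exp ((th : ℂ) * Complex.I)) 0) := by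
    rw [h0, mul_zero, zero_add] at h5
    simpa using h5
  have h7 := h6.comp (0 : ℝ) h1
  have h8 : (fun th : ℝ => evR (z0 * Circle.exp th) (LaurentPolynomial.T n * toLaurent q : RO ℤ)) =
      (fun z : ℂ => z ^ n * aeval z q) ∘
        (fun th : ℝ => (z0 : ℂ) * Complex.exp ((th : ℂ) * Complex.I)) := by
    funext th
    exact h4 th
  rw [h8]
  exact h7.congr_deriv (by ring)

section

variable {L : Type} [AddCommGroup L]

theorem sl_spec_sum (u : AddChar L Circle) (lam : L →+ ℤ) (z : Circle) (H : AO ℤ L) (s : ℂ) :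
    (sl u lam (spec z H)).eval s =
      H.coeff.sum fun a r => evR z r * (u a : ℂ) * s ^ (lam a).toNat := by
  rw [H59.sl_eval, H59.spec_sum _ _ _ (by intro x; simp)]

theorem sl_cont (h7 : EvRS) (u : AddChar L Circle) (lam : L →+ ℤ) (H : AO ℤ L) (s : ℂ) :
    Continuous fun z : Circle => (sl u lam (spec z H)).eval s := by
  simp only [sl_spec_sum, Finsupp.sum]
  refine continuous_finsetSum _ fun a _ => ?_
  exact (((h7 ℤ).2.2.2 (H.coeff a)).mul continuous_const).mul continuous_const

theorem sl_cst (u : AddChar L Circle) (lam : L →+ ℤ) (z : Circle) (c : RO ℤ) (H : AO ℤ L) (s : ℂ) :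
    (sl u lam (spec z (cst c * H))).eval s = evR z c * (sl u lam (spec z H)).eval s := by
  let f : AO ℤ L →+ ℂ :=
    { toFun := fun H => (sl u lam (spec z (cst c * H))).eval s
      map_zero' := by rw [mul_zero, map_zero, H83.sl_zero, eval_zero]
      map_add' := fun p q => by rw [mul_add, map_add, H83.sl_add, eval_add] }
  let g : AO ℤ L →+ ℂ :=
    { toFun := fun H => evR z c * (sl u lam (spec z H)).eval s
      map_zero' := by rw [map_zero, H83.sl_zero, eval_zero, mul_zero]
      map_add' := fun p q => by rw [map_add, H83.sl_add, eval_add, mul_add] }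
  refine H83.eq_of_single f g H (fun a ha => ?_)
  change (sl u lam (spec z (AddMonoidAlgebra.single 0 c * AddMonoidAlgebra.single a (H.coeff a)))).eval s
    = evR z c * (sl u lam (spec z (AddMonoidAlgebra.single a (H.coeff a)))).eval s
  rw [AddMonoidAlgebra.single_mul_single, zero_add, H83.spec_single, H83.spec_single,
    H83.sl_single, H83.sl_single, eval_monomial, eval_monomial, map_mul]
  ring

end

/-- The limit at a simple zero. -/
theorem lim_re (f X G : ℝ → ℂ) (ga : ℂ) (hf : HasDerivAt f ga 0) (hf0 : f 0 = 0)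
    (hX : ContinuousAt X 0) (hG : ContinuousAt G 0)
    (h : ∀ th, 0 ≤ (X th * (starRingEnd ℂ) (f th * G th)).re) :
    (X 0 * (starRingEnd ℂ) (ga * G 0)).re = 0 := by
  have h1 : Filter.Tendsto (fun t : ℝ => t⁻¹ • f t) (nhdsWithin 0 {0}ᶜ) (nhds ga) := by
    have := hasDerivAt_iff_tendsto_slope_zero.mp hf
    simpa [hf0] using this
  have hXt : Filter.Tendsto X (nhdsWithin 0 {0}ᶜ) (nhds (X 0)) := hX.tendsto.mono_left nhdsWithin_le_nhds
  have hGt : Filter.Tendsto G (nhdsWithin 0 {0}ᶜ) (nhds (G 0)) := hG.tendsto.mono_left nhdsWithin_le_nhds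
  have h2 : Filter.Tendsto (fun t : ℝ => (X t * (starRingEnd ℂ) ((t⁻¹ • f t) * G t)).re)
      (nhdsWithin 0 {0}ᶜ) (nhds (X 0 * (starRingEnd ℂ) (ga * G 0)).re) := by
    apply (Complex.continuous_re.tendsto _).comp
    apply hXt.mul
    exact (Complex.continuous_conj.tendsto _).comp (h1.mul hGt)
  have h3 : ∀ t : ℝ, (X t * (starRingEnd ℂ) ((t⁻¹ • f t) * G t)).re =
      t⁻¹ * (X t * (starRingEnd ℂ) (f t * G t)).re := by
    intro t
    rw [Complex.real_smul, mul_assoc, map_mul, Complex.conj_ofReal, mul_left_comm,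
      Complex.re_ofReal_mul]
  apply le_antisymm
  · apply le_of_tendsto (h2.mono_left (nhdsWithin_mono 0 (s := Set.Iio 0) (by
      intro t ht; exact ne_of_lt ht)))
    filter_upwards [self_mem_nhdsWithin] with t ht
    rw [h3]
    exact mul_nonpos_of_nonpos_of_nonneg (inv_nonpos.mpr (le_of_lt ht)) (h t)
  · apply ge_of_tendsto (h2.mono_left (nhdsWithin_mono 0 (s := Set.Ioi 0) (by
      intro t ht; exact ne_of_gt ht)))
    filter_upwards [self_mem_nhdsWithin] with t ht
    rw [h3]
    exact mul_nonneg (inv_nonneg.mpr (le_of_lt ht)) (h t)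

theorem crss (h2 : MultiS) (h3 : StSpecS) (h6 : G0S) (h7 : EvRS) (h8 : E2S) : CrssS := by
  intro P L _ _ _ _ _ phi E S i0 h eta c G z0 q n hcc hcl hc hq0 hq1 hG0
  obtain ⟨-, -, lam, hS, hlam⟩ := hcc.ray
  have hq : q ≠ 0 := by
    rintro rfl
    apply hq1
    simp
  have hc0 : c ≠ 0 := by
    rw [hc]
    intro h0
    have h1 : (toLaurent q : RO ℤ) = 0 := by
      rcases mul_eq_zero.mp h0 with h1 | h1
      · exact absurd h1 (LaurentPolynomial.isUnit_T n).ne_zero
      · exact h1
    exact hq (Polynomial.toLaurent_injective (by rw [h1, map_zero]))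
  have hPV : Pos (lam.comp (incl (Ker (co phi i0)))) (cl (co phi i0) S h eta E) :=
    (h6 ℤ P L phi E S i0 eta h hcc).2.2.2.2.2 lam hS hlam
  have hPG : Pos (lam.comp (incl (Ker (co phi i0)))) G := by
    intro a ha h0
    apply hPV a _ h0
    rw [Finsupp.mem_support_iff] at ha ⊢
    rw [hcl]
    change (AddMonoidAlgebra.single 0 c * G).coeff a ≠ 0
    rw [AddMonoidAlgebra.coeff_single_zero_mul]
    exact mul_ne_zero hc0 ha
  have hPX : Pos (lam.comp (incl (Ker (co phi i0)))) (res (Ker (co phi i0)) E) := by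
    intro a ha h0
    rw [Finsupp.mem_support_iff, res_coeff] at ha
    apply hlam _ ha
    · exact fun h => h0 (Subtype.ext h)
    · intro h'
      have h2 : (co phi i0) (a : L) = 0 := a.2
      rw [h', h] at h2
      exact one_ne_zero h2
  set ga : ℂ := (z0 : ℂ) ^ n * (aeval (z0 : ℂ) (derivative q) * ((z0 : ℂ) * Complex.I)) with hga
  have hga0 : ga ≠ 0 := by
    rw [hga]
    have hz0 : (z0 : ℂ) ≠ 0 := Circle.coe_ne_zero z0
    exact mul_ne_zero (zpow_ne_zero _ hz0) (mul_ne_zero hq1 (mul_ne_zero hz0 Complex.I_ne_zero))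
  have key : ∀ (u : AddChar (Ker (co phi i0)) Circle) (s : ℂ), ‖s‖ < 1 →
      ((sl u (lam.comp (incl (Ker (co phi i0)))) (spec z0 (res (Ker (co phi i0)) E))).eval s *
        (starRingEnd ℂ) (ga * (sl u (lam.comp (incl (Ker (co phi i0)))) (spec z0 G)).eval s)).re = 0 := by
    intro u s hs
    have hcu : Continuous fun th : ℝ => z0 * Circle.exp th := by fun_prop
    have h0 : z0 * Circle.exp 0 = z0 := by rw [Circle.exp_zero, mul_one]
    have := lim_re
      (fun th : ℝ => evR (z0 * Circle.exp th) c)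
      (fun th : ℝ => (sl u (lam.comp (incl (Ker (co phi i0))))
        (spec (z0 * Circle.exp th) (res (Ker (co phi i0)) E))).eval s)
      (fun th : ℝ => (sl u (lam.comp (incl (Ker (co phi i0))))
        (spec (z0 * Circle.exp th) G)).eval s) ga
      (by rw [hc]; exact curve_deriv z0 q n hq0)
      (by rw [h0, hc, evR_Tq, hq0, mul_zero])
      ((sl_cont h7 u _ _ s).comp hcu).continuousAt
      ((sl_cont h7 u _ _ s).comp hcu).continuousAt
      (by
        intro th
        have h1 := re_nn h2 h3 h7 h8 phi E S i0 eta h hcc lam hS hlam (z0 * Circle.exp th) u s hs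
        rw [hcl, sl_cst] at h1
        exact h1)
    simp only [h0] at this
    exact this
  have hX0 : ∀ u : AddChar (Ker (co phi i0)) Circle,
      (sl u (lam.comp (incl (Ker (co phi i0)))) (spec z0 (res (Ker (co phi i0)) E))).eval 0 =
        evR z0 (E.coeff 0) := by
    intro u
    rw [← Polynomial.coeff_zero_eq_eval_zero, H83.sl_coeff_zero (H83.pos_spec hPX z0), spec_coeff,
      res_coeff]
    rfl
  have hG0' : ∀ u : AddChar (Ker (co phi i0)) Circle,
      (sl u (lam.comp (incl (Ker (co phi i0)))) (spec z0 G)).eval 0 = evR z0 (G.coeff 0) := by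
    intro u
    rw [← Polynomial.coeff_zero_eq_eval_zero, H83.sl_coeff_zero (H83.pos_spec hPG z0), spec_coeff]
  have hpoly : ∀ u : AddChar (Ker (co phi i0)) Circle,
      C (evR z0 (G.coeff 0)) *
        sl u (lam.comp (incl (Ker (co phi i0)))) (spec z0 (res (Ker (co phi i0)) E)) =
      C (evR z0 (E.coeff 0)) * sl u (lam.comp (incl (Ker (co phi i0)))) (spec z0 G) := by
    intro u
    have h1 := prop_of_re _ _ ga hga0 (by rw [hG0' u]; exact hG0) (key u)
    rw [hG0' u, hX0 u] at h1
    exact h1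
  have hz : AddMonoidAlgebra.single 0 (evR z0 (G.coeff 0)) * spec z0 (res (Ker (co phi i0)) E) -
      AddMonoidAlgebra.single 0 (evR z0 (E.coeff 0)) * spec z0 G = 0 := by
    apply H78.eq_zero_of_evC
    intro u
    have h1 := congrArg (fun p : ℂ[X] => p.eval 1) (hpoly u)
    simp only [eval_mul, eval_C] at h1
    have h2 : ∀ p : CA (Ker (co phi i0)),
        (sl u (lam.comp (incl (Ker (co phi i0)))) p).eval 1 = evC u p := by
      intro p
      rw [H59.sl_eval, evC_apply]
      refine Finsupp.sum_congr fun a _ => ?_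
      rw [one_pow, mul_one]
    have h3 : ∀ x : ℂ, evC u (AddMonoidAlgebra.single 0 x : CA (Ker (co phi i0))) = x := by
      intro x
      rw [evC_apply, AddMonoidAlgebra.coeff_single, Finsupp.sum_single_index (by simp),
        AddChar.map_zero_eq_one]
      simp
    rw [map_sub, map_mul, map_mul, h3, h3, ← h2, ← h2, h1, sub_self]
  refine ⟨evR z0 (E.coeff 0) / evR z0 (G.coeff 0), fun a => ?_⟩
  have h1 := congrArg (fun p : CA (Ker (co phi i0)) => p.coeff a) hz
  simp only [AddMonoidAlgebra.coeff_sub, Finsupp.sub_apply, AddMonoidAlgebra.coeff_single_zero_mul,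
    spec_coeff, res_coeff] at h1
  rw [div_mul_eq_mul_div, eq_div_iff hG0]
  have h4 : evR z0 (G.coeff 0) * evR z0 (E.coeff (a : L)) -
      evR z0 (E.coeff 0) * evR z0 (G.coeff a) = 0 := h1
  linear_combination h4

/-! ## Simple zeros -/

theorem disc_le : ∀ (n : ℕ) (x y : ℂ[X]), x.natDegree = n → (∀ s : ℂ, ‖s‖ < 1 → x.eval s ≠ 0) →
    (∀ s : ℂ, ‖s‖ = 1 → ‖y.eval s‖ ≤ ‖x.eval s‖) → ∀ s : ℂ, ‖s‖ < 1 → ‖y.eval s‖ ≤ ‖x.eval s‖ := by
  intro n
  induction n using Nat.strong_induction_on with
  | _ n ih =>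
    intro x y hn hzf hle s hs
    have hx0 : x ≠ 0 := by
      rintro rfl
      exact hzf 0 (by simp) (by simp)
    by_cases hroot : ∃ a : ℂ, ‖a‖ = 1 ∧ x.eval a = 0
    · obtain ⟨a, hna, ha⟩ := hroot
      have hya : y.eval a = 0 := by
        have h1 := hle a hna
        rw [ha, norm_zero] at h1
        exact norm_le_zero_iff.mp h1
      obtain ⟨x1, hx1⟩ := dvd_iff_isRoot.mpr (IsRoot.def.mpr ha)
      obtain ⟨y1, hy1⟩ := dvd_iff_isRoot.mpr (IsRoot.def.mpr hya)
      have hx10 : x1 ≠ 0 := by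
        rintro rfl
        apply hx0
        rw [hx1, mul_zero]
      have hnat : x1.natDegree < n := by
        have h2 := natDegree_mul (X_sub_C_ne_zero a) hx10
        rw [← hx1, hn, natDegree_X_sub_C] at h2
        omega
      have hfac : ∀ w : ℂ, ‖y.eval w‖ = ‖(X - C a).eval w‖ * ‖y1.eval w‖ := by
        intro w
        rw [hy1, eval_mul, norm_mul]
      have hfac2 : ∀ w : ℂ, ‖x.eval w‖ = ‖(X - C a).eval w‖ * ‖x1.eval w‖ := by
        intro w
        rw [hx1, eval_mul, norm_mul]
      have h5 := ih _ hnat x1 y1 rfl (fun w hw h0 => hzf w hw (by rw [hx1, eval_mul, h0, mul_zero]))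
        (by
          have hcl : IsClosed {w : ℂ | ‖y1.eval w‖ ≤ ‖x1.eval w‖} :=
            isClosed_le y1.continuous.norm x1.continuous.norm
          have hsub : {w : ℂ | ‖w‖ = 1 ∧ w ≠ a} ⊆ {w : ℂ | ‖y1.eval w‖ ≤ ‖x1.eval w‖} := by
            rintro w ⟨hw1, hwa⟩
            have h3 := hle w hw1
            rw [hfac, hfac2] at h3
            have h4 : 0 < ‖(X - C a).eval w‖ := by
              rw [eval_sub, eval_X, eval_C, norm_pos_iff]
              exact sub_ne_zero.mpr hwa
            exact le_of_mul_le_mul_left h3 h4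
          intro w hw
          by_cases hwa : w = a
          · rw [hwa]
            exact closure_minimal hsub hcl (H79.mem_closure_circle a hna)
          · exact hsub ⟨hw, hwa⟩) s hs
      rw [hfac, hfac2]
      exact mul_le_mul_of_nonneg_left h5 (norm_nonneg _)
    · push Not at hroot
      have hall : ∀ w : ℂ, ‖w‖ ≤ 1 → x.eval w ≠ 0 := by
        intro w hw
        rcases hw.lt_or_eq with h | h
        · exact hzf w h
        · exact hroot w h
      have hcl : closure (Metric.ball (0 : ℂ) 1) = Metric.closedBall 0 1 :=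
        closure_ball 0 one_ne_zero
      have hd : DiffContOnCl ℂ (fun w : ℂ => y.eval w / x.eval w) (Metric.ball 0 1) := by
        constructor
        · intro w hw
          have hw' : ‖w‖ ≤ 1 := by simpa using (Metric.mem_ball.mp hw).le
          exact (y.differentiable.differentiableAt.div x.differentiable.differentiableAt
            (hall w hw')).differentiableWithinAt
        · rw [hcl]
          intro w hw
          have hw' : ‖w‖ ≤ 1 := by simpa using hw
          exact (y.differentiable.differentiableAt.div x.differentiable.differentiableAt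
            (hall w hw')).continuousAt.continuousWithinAt
      have key : ‖y.eval s / x.eval s‖ ≤ 1 := by
        refine Complex.norm_le_of_forall_mem_frontier_norm_le Metric.isBounded_ball hd (C := 1) ?_ ?_
        · intro w hw
          rw [frontier_ball (0 : ℂ) one_ne_zero] at hw
          have hw' : ‖w‖ = 1 := by simpa using hw
          rw [norm_div]
          exact (div_le_one (norm_pos_iff.mpr (hall w hw'.le))).mpr (hle w hw')
        · rw [hcl]
          simpa using hs.le
      rw [norm_div] at key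
      exact (div_le_one (norm_pos_iff.mpr (hall s hs.le))).mp key

theorem re_of_norm {x y : ℂ} (h : ‖y‖ ≤ ‖x‖) : 0 ≤ ((x - y) * (starRingEnd ℂ) x).re := by
  have h9 : Complex.normSq y ≤ Complex.normSq x := by
    rw [Complex.normSq_eq_norm_sq, Complex.normSq_eq_norm_sq]
    exact pow_le_pow_left₀ (norm_nonneg _) h 2
  rw [Complex.normSq_apply, Complex.normSq_apply] at h9
  rw [Complex.mul_re, Complex.conj_re, Complex.conj_im, Complex.sub_re, Complex.sub_im]
  nlinarith [sq_nonneg (x.re - y.re), sq_nonneg (x.im - y.im)]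

/-- A polynomial `D` with `Re (D conj x) ≥ 0` in the disc has only simple zeros on the circle,
where `x` is not zero. -/
theorem hopf (x D : ℂ[X]) (z0 : ℂ) (hz0 : ‖z0‖ = 1) (hx : x.eval z0 ≠ 0) (hD0 : D ≠ 0)
    (hre : ∀ s : ℂ, ‖s‖ < 1 → 0 ≤ (D.eval s * (starRingEnd ℂ) (x.eval s)).re)
    (h0 : D.eval z0 = 0) : (derivative D).eval z0 ≠ 0 := by
  intro h1
  obtain ⟨k, hk, hk0⟩ := exists_eq_pow_rootMultiplicity_mul_and_not_dvd D hD0 z0
  set r := D.rootMultiplicity z0 with hr
  have hr2 : 1 < r := (one_lt_rootMultiplicity_iff_isRoot hD0).mpr ⟨h0, h1⟩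
  have hkz : k.eval z0 ≠ 0 := fun h => hk0 (dvd_iff_isRoot.mpr (IsRoot.def.mpr h))
  set be : ℂ := (-z0) ^ r * (k.eval z0 * (starRingEnd ℂ) (x.eval z0)) with hbe
  have hz00 : z0 ≠ 0 := by
    intro h
    rw [h, norm_zero] at hz0
    exact zero_ne_one hz0
  have hbe0 : be ≠ 0 := mul_ne_zero (pow_ne_zero _ (neg_ne_zero.mpr hz00))
    (mul_ne_zero hkz ((_root_.map_ne_zero _).mpr hx))
  have claim : ∀ w : ℂ, 0 < w.re → 0 ≤ (be * w ^ r).re := by
    intro w hw
    have hc : Continuous fun t : ℝ => z0 * (1 - (t : ℂ) * w) := by fun_prop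
    have hlim : Filter.Tendsto (fun t : ℝ => ((-z0) ^ r *
        (k.eval (z0 * (1 - (t : ℂ) * w)) * (starRingEnd ℂ) (x.eval (z0 * (1 - (t : ℂ) * w)))) *
          w ^ r).re) (nhdsWithin 0 (Set.Ioi 0)) (nhds (be * w ^ r).re) := by
      have hcon : Continuous fun t : ℝ => ((-z0) ^ r *
        (k.eval (z0 * (1 - (t : ℂ) * w)) * (starRingEnd ℂ) (x.eval (z0 * (1 - (t : ℂ) * w)))) *
          w ^ r).re := by
        apply Complex.continuous_re.comp
        apply Continuous.mul _ continuous_const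
        apply continuous_const.mul
        exact (k.continuous.comp hc).mul (Complex.continuous_conj.comp (x.continuous.comp hc))
      have h2 := hcon.tendsto 0
      simp only [Complex.ofReal_zero, zero_mul, sub_zero, mul_one] at h2
      exact h2.mono_left nhdsWithin_le_nhds
    apply ge_of_tendsto hlim
    have hnw : 0 < Complex.normSq w := Complex.normSq_pos.mpr (by
      rintro rfl
      exact lt_irrefl _ hw)
    have h3 : ∀ᶠ t : ℝ in nhdsWithin 0 (Set.Ioi 0), t < 2 * w.re / Complex.normSq w :=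
      (gt_mem_nhds (by positivity : (0 : ℝ) < 2 * w.re / Complex.normSq w)).filter_mono
        nhdsWithin_le_nhds
    filter_upwards [h3, self_mem_nhdsWithin] with t ht1 ht0
    have ht0' : 0 < t := ht0
    have hs1 : ‖z0 * (1 - (t : ℂ) * w)‖ < 1 := by
      rw [norm_mul, hz0, one_mul]
      have h4 : Complex.normSq (1 - (t : ℂ) * w) < 1 := by
        rw [Complex.normSq_apply]
        rw [lt_div_iff₀ hnw, Complex.normSq_apply] at ht1
        simp only [Complex.sub_re, Complex.one_re, Complex.mul_re, Complex.ofReal_re,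
          Complex.ofReal_im, zero_mul, sub_zero, Complex.sub_im, Complex.one_im, Complex.mul_im,
          add_zero, zero_sub]
        nlinarith
      rw [Complex.normSq_eq_norm_sq] at h4
      have h5 := norm_nonneg (1 - (t : ℂ) * w)
      nlinarith
    have h6 := hre _ hs1
    have h7 : D.eval (z0 * (1 - (t : ℂ) * w)) =
        ((t ^ r : ℝ) : ℂ) * ((-z0) ^ r * k.eval (z0 * (1 - (t : ℂ) * w)) * w ^ r) := by
      conv_lhs => rw [hk]
      rw [eval_mul, eval_pow, eval_sub, eval_X, eval_C]
      have h8 : z0 * (1 - (t : ℂ) * w) - z0 = (t : ℂ) * (-z0) * w := by ring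
      rw [h8, mul_pow, mul_pow]
      push_cast
      ring
    rw [h7, mul_assoc, Complex.re_ofReal_mul] at h6
    have h9 : 0 < t ^ r := pow_pos ht0' r
    have h10 := nonneg_of_mul_nonneg_right h6 h9
    convert h10 using 2
    ring
  have hr0 : (0 : ℝ) < r := by exact_mod_cast (by omega : 0 < r)
  have hr2' : (2 : ℝ) ≤ r := by exact_mod_cast hr2
  have hexp : ∀ a : ℝ, |a| < Real.pi → 0 ≤ (be * Complex.exp ((a : ℂ) * Complex.I)).re := by
    intro a ha
    have h2 := claim (Complex.exp (((a / r : ℝ) : ℂ) * Complex.I)) (by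
      rw [Complex.exp_ofReal_mul_I_re]
      apply Real.cos_pos_of_mem_Ioo
      have h3 : |a / r| < Real.pi / 2 := by
        rw [abs_div, abs_of_pos hr0, div_lt_iff₀ hr0]
        nlinarith [Real.pi_pos]
      exact ⟨by linarith [(abs_lt.mp h3).1], (abs_lt.mp h3).2⟩)
    have hrc : (r : ℂ) ≠ 0 := by exact_mod_cast hr0.ne'
    have h5 : (r : ℂ) * (((a / r : ℝ) : ℂ) * Complex.I) = (a : ℂ) * Complex.I := by
      rw [← mul_assoc, Complex.ofReal_div, Complex.ofReal_natCast, mul_div_cancel₀ _ hrc]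
    rw [← Complex.exp_nat_mul, h5] at h2
    exact h2
  have hpi := Real.pi_pos
  have e1 := hexp 0 (by rw [abs_zero]; exact hpi)
  have e2 := hexp (Real.pi / 2) (by rw [abs_of_pos (by linarith)]; linarith)
  have e3 := hexp (-(Real.pi / 2)) (by rw [abs_neg, abs_of_pos (by linarith)]; linarith)
  have e4 := hexp (3 * Real.pi / 4) (by rw [abs_of_pos (by linarith)]; linarith)
  simp only [Complex.mul_re, Complex.exp_ofReal_mul_I_re, Complex.exp_ofReal_mul_I_im,
    Real.cos_zero, Real.sin_zero, Real.cos_pi_div_two, Real.sin_pi_div_two, Real.cos_neg,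
    Real.sin_neg] at e1 e2 e3 e4
  have hcos : Real.cos (3 * Real.pi / 4) < 0 :=
    Real.cos_neg_of_pi_div_two_lt_of_lt (by linarith) (by linarith)
  apply hbe0
  have him : be.im = 0 := by linarith
  have hre0 : be.re = 0 := by
    rw [him, zero_mul, sub_zero] at e4
    nlinarith
  exact Complex.ext hre0 him

theorem szc : SzcS := by
  intro p0 p1 z0 hne hzf hle hz0 hx h0
  set x := p0.map (algebraMap ℤ ℂ) with hxd
  set y := p1.map (algebraMap ℤ ℂ) with hyd
  have hxe : ∀ z : ℂ, aeval z p0 = x.eval z := fun z => by rw [hxd, eval_map_algebraMap]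
  have hye : ∀ z : ℂ, aeval z p1 = y.eval z := fun z => by rw [hyd, eval_map_algebraMap]
  have hD : ∀ z : ℂ, (x - y).eval z = aeval z (p0 - p1) := fun z => by
    rw [eval_sub, map_sub, hxe, hye]
  have hD0 : x - y ≠ 0 := by
    rw [sub_ne_zero, hxd, hyd]
    exact fun h => hne (Polynomial.map_injective (algebraMap ℤ ℂ) (algebraMap ℤ ℂ).injective_int h)
  have hle' := disc_le _ x y rfl (fun s hs => by rw [← hxe]; exact hzf s hs) (fun s hs => by
    rw [← hxe, ← hye]
    exact hle ⟨s, mem_sphere_zero_iff_norm.mpr hs⟩)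
  have h1 := hopf x (x - y) z0 hz0 (by rw [← hxe]; exact hx) hD0 (fun s hs => by
    rw [eval_sub]
    exact re_of_norm (hle' s hs)) (by rw [hD]; exact h0)
  have h2 : (derivative (x - y)).eval z0 = aeval z0 (derivative (p0 - p1)) := by
    rw [hxd, hyd, ← Polynomial.map_sub, derivative_map, eval_map_algebraMap]
  rw [← h2]
  exact h1

end H02

end Pool.Agent.B5
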